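import Pool.Agent.Helper4.TH.StD

/-!
# Project TH, module REL: the relations between the two plane functions of a symbol
-/

set_option autoImplicit false

namespace Pool.Agent.Helper36.TH

open Pool.Agent.Helper4.TH
open Pool.Agent.Helper93.TLH (HTy SymH)
open Pool.Agent.Helper14.CV (Homog)
open Pool.Agent.Helper14.W5 (e5 tr5)

/-- Scalar multiples of the vector do not matter. -/
private lemma rel_sc {R : Type} {G : ℤ → ℤ → R} (hG : Homog G) (X Y k u1 u2 : ℤ) (hk : k ≠ 0)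
    (hu : u1 ≠ 0 ∨ u2 ≠ 0) :
    G (k * u1 + X * (k * u2)) (5 * Y * (k * u1) + (1 + 5 * X * Y) * (k * u2)) =
      G (u1 + X * u2) (5 * Y * u1 + (1 + 5 * X * Y) * u2) := by
  have hne : (1 * u1 + X * u2 ≠ 0 ∨ (5 * Y) * u1 + (1 + 5 * X * Y) * u2 ≠ 0) :=
    Pool.Agent.Helper14.CV.ne_zero_of_det (a := 1) (b := X) (c := 5 * Y) (d := 1 + 5 * X * Y)
      (by ring_nf; norm_num) hu
  rw [one_mul] at hne
  rw [← hG k _ _ hk hne]
  congr 1 <;> ring

/-- REL: the plane functions of a symbol satisfy the relations. -/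
theorem hRel (ht : TTre) : TRel := by
  intro R _ r s G hG
  have k0 : (pfH G 0 : ZMod (5 ^ r) → ZMod (5 ^ s) → R) = edgeH 1 0 0 1 G := by
    funext x y; rfl
  have k1 : (pfH G 1 : ZMod (5 ^ r) → ZMod (5 ^ s) → R) = edgeH 1 2 0 1 G := by
    funext x y; rfl
  have kk : (kH (fun i => (pfH G i : ZMod (5 ^ r) → ZMod (5 ^ s) → R))) = edgeH 1 1 1 2 G := by
    funext x y
    have h0 := ht R _ r s G hG 1 1 0 1 1 0 0 1 (by unfold HTy; decide) (by simp) (by simp) x y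
    norm_num at h0
    show (pfH G 0 : ZMod (5 ^ r) → ZMod (5 ^ s) → R) x y - tr5 1 1 0 1 (pfH G 0) x y -
      (pfH G 1 : ZMod (5 ^ r) → ZMod (5 ^ s) → R) x y = _
    rw [k0, k1, ← h0]
    unfold edgeH
    abel
  refine ⟨fun x y => ?_, fun x y => ?_⟩
  · have h1 := ht R _ r s G hG 4 (-1) 2 (-2) 1 2 0 1 (by unfold HTy; decide) (by simp) (by simp) x y
    have h2 := ht R _ r s G hG 3 (-1) 2 (-3) 1 2 0 1 (by unfold HTy; decide) (by simp) (by simp) x y
    have h3 := ht R _ r s G hG 2 (-1) 2 (-4) 1 2 0 1 (by unfold HTy; decide) (by simp) (by simp) x y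
    have n1 := rel_sc hG.1 (x.val : ℤ) (yH x y) (-1) 1 2 (by norm_num) (by simp)
    have n2 := rel_sc hG.1 (x.val : ℤ) (yH x y) (-1) 1 3 (by norm_num) (by simp)
    have n3 := rel_sc hG.1 (x.val : ℤ) (yH x y) (-1) 1 4 (by norm_num) (by simp)
    have n4 := rel_sc hG.1 (x.val : ℤ) (yH x y) 2 1 3 (by norm_num) (by simp)
    have n5 := rel_sc hG.1 (x.val : ℤ) (yH x y) 2 0 1 (by norm_num) (by simp)
    show (pfH G 1 : ZMod (5 ^ r) → ZMod (5 ^ s) → R) x y + tr5 4 (-1) 2 (-2) (pfH G 1) x y +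
      tr5 3 (-1) 2 (-3) (pfH G 1) x y + tr5 2 (-1) 2 (-4) (pfH G 1) x y = 0
    rw [k1, ← h1, ← h2, ← h3]
    unfold edgeH
    norm_num at n1 n2 n3 n4 n5 ⊢
    rw [n1, n2, n3, n4, n5]
    abel
  · have h1 := ht R _ r s G hG 6 (-5) 2 (-8) 1 1 1 2 (by unfold HTy; decide) (by simp) (by simp) x y
    have h2 := ht R _ r s G hG 7 (-5) 2 (-7) 1 1 1 2 (by unfold HTy; decide) (by simp) (by simp) x y
    have h3 := ht R _ r s G hG 8 (-5) 2 (-6) 1 1 1 2 (by unfold HTy; decide) (by simp) (by simp) x y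
    have n1 := rel_sc hG.1 (x.val : ℤ) (yH x y) (-2) 2 3 (by norm_num) (by simp)
    have n2 := rel_sc hG.1 (x.val : ℤ) (yH x y) (-1) 3 4 (by norm_num) (by simp)
    have n3 := rel_sc hG.1 (x.val : ℤ) (yH x y) (-2) 1 1 (by norm_num) (by simp)
    rw [kk, ← h1, ← h2, ← h3]
    unfold edgeH
    norm_num at n1 n2 n3 ⊢
    rw [n1, n2, n3]
    abel

end Pool.Agent.Helper36.TH
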